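import Mathlib

/-!
# Large `(k-1)`-degenerate induced subgraphs of graphs of degeneracy `k`

For every `k ≥ 2` there is a graph on `2k+1` vertices of degeneracy exactly `k` in which every set of
`2k` vertices induces a graph of degeneracy `k`: a clique on `k` vertices joined completely to an
independent set of `k` vertices, plus one further vertex adjacent to that independent set.
-/

set_option autoImplicit false

namespace Pool.Agent.Results.MP_f95752_co.TopCase

/-- A graph is `d`-degenerate if every (nonempty) subgraph has a vertex of degree at most `d`. -/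
def Degenerate {V : Type*} (G : SimpleGraph V) (d : ℕ) : Prop :=
  ∀ H : G.Subgraph, H.verts.Nonempty → ∃ v ∈ H.verts, (H.neighborSet v).ncard ≤ d

/-- The degeneracy of `G` is exactly `k`. -/
def HasDegeneracy {V : Type*} (G : SimpleGraph V) (k : ℕ) : Prop :=
  IsLeast {d : ℕ | Degenerate G d} k

/-- The largest number of vertices of an induced `d`-degenerate subgraph. -/
noncomputable def alpha {n : ℕ} (d : ℕ) (G : SimpleGraph (Fin n)) : ℕ :=
  sSup {m : ℕ | ∃ S : Set (Fin n), S.ncard = m ∧ Degenerate (G.induce S) d}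

/-- The infimum of `alpha_d(G) / |V(G)|` over all graphs of degeneracy exactly `k`. -/
noncomputable def alphaInf (d k : ℕ) : ℝ :=
  sInf {x : ℝ | ∃ n : ℕ, 0 < n ∧ ∃ G : SimpleGraph (Fin n), HasDegeneracy G k ∧
    x = (alpha d G : ℝ) / (n : ℝ)}

theorem not_degenerate_of {n : ℕ} (G : SimpleGraph (Fin n)) (S T : Set (Fin n)) (d : ℕ)
    (hTS : T ⊆ S) (hne : T.Nonempty)
    (h : ∀ v ∈ T, d < (T ∩ {u | G.Adj v u}).ncard) : ¬ Degenerate (G.induce S) d := by
  intro hd
  obtain ⟨t, ht⟩ := hne
  obtain ⟨v, hv, hle⟩ := hd ((⊤ : (G.induce S).Subgraph).induce {x | x.val ∈ T})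
    ⟨⟨t, hTS ht⟩, ht⟩
  have hv' : v.val ∈ T := hv
  have hlt := h v.val hv'
  have heq : ((⊤ : (G.induce S).Subgraph).induce {x | x.val ∈ T}).neighborSet v
      = Subtype.val ⁻¹' (T ∩ {u | G.Adj v.val u}) := by
    ext u
    simp only [SimpleGraph.Subgraph.mem_neighborSet, SimpleGraph.Subgraph.induce_adj,
      Set.mem_ofPred_eq, SimpleGraph.Subgraph.top_adj, SimpleGraph.comap_adj, Set.mem_preimage,
      Set.mem_inter_iff, Function.Embedding.subtype_apply]
    tauto
  rw [heq, Set.ncard_preimage_of_injective_subset_range Subtype.val_injective] at hle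
  · omega
  · intro u hu
    exact ⟨⟨u, hTS hu.1⟩, rfl⟩

/-- The relation that generates the extremal graph. -/
def rel (k : ℕ) (i j : Fin (2 * k + 1)) : Prop :=
  (i.val < k ∧ j.val < 2 * k) ∨ (k ≤ i.val ∧ i.val < 2 * k ∧ j.val = 2 * k)

/-- The extremal graph: vertices `0, ..., k-1` form a clique, vertices `k, ..., 2k-1` are
independent and adjacent to the clique, and vertex `2k` is adjacent to `k, ..., 2k-1`. -/
def ext (k : ℕ) : SimpleGraph (Fin (2 * k + 1)) := SimpleGraph.fromRel (rel k)

theorem ext_adj {k : ℕ} {i j : Fin (2 * k + 1)} :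
    (ext k).Adj i j ↔ i.val ≠ j.val ∧ ((i.val < k ∧ j.val < 2 * k) ∨
      (k ≤ i.val ∧ i.val < 2 * k ∧ j.val = 2 * k) ∨ (j.val < k ∧ i.val < 2 * k) ∨
      (k ≤ j.val ∧ j.val < 2 * k ∧ i.val = 2 * k)) := by
  unfold ext rel
  rw [SimpleGraph.fromRel_adj]
  rw [ne_eq, Fin.ext_iff]
  tauto

theorem ncard_Ico {k a b : ℕ} (hb : b ≤ 2 * k + 1) :
    ({i : Fin (2 * k + 1) | a ≤ i.val ∧ i.val < b} : Set _).ncard = b - a := by
  have h : ({i : Fin (2 * k + 1) | a ≤ i.val ∧ i.val < b} : Set _)
      = Fin.val ⁻¹' (Set.Ico a b) := by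
    ext i; simp
  rw [h, Set.ncard_preimage_of_injective_subset_range Fin.val_injective]
  · rw [← Finset.coe_Ico, Set.ncard_coe_finset, Nat.card_Ico]
  · intro x hx
    exact ⟨⟨x, by have := hx.2; omega⟩, rfl⟩

theorem ext_degenerate (k : ℕ) : Degenerate (ext k) k := by
  intro H hne
  by_cases h1 : ∃ v ∈ H.verts, v.val = 2 * k
  · obtain ⟨v, hv, hvk⟩ := h1
    refine ⟨v, hv, ?_⟩
    calc (H.neighborSet v).ncard
        ≤ ({i : Fin (2 * k + 1) | k ≤ i.val ∧ i.val < 2 * k} : Set _).ncard := by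
          refine Set.ncard_le_ncard ?_ (Set.toFinite _)
          intro u hu
          have := ext_adj.1 (H.adj_sub hu)
          simp only [Set.mem_ofPred_eq]
          omega
      _ ≤ k := by rw [ncard_Ico (by omega)]; omega
  · by_cases h2 : ∃ v ∈ H.verts, k ≤ v.val
    · obtain ⟨v, hv, hvk⟩ := h2
      refine ⟨v, hv, ?_⟩
      have hv2 : v.val ≠ 2 * k := fun h => h1 ⟨v, hv, h⟩
      calc (H.neighborSet v).ncard
          ≤ ({i : Fin (2 * k + 1) | 0 ≤ i.val ∧ i.val < k} : Set _).ncard := by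
            refine Set.ncard_le_ncard ?_ (Set.toFinite _)
            intro u hu
            have := ext_adj.1 (H.adj_sub hu)
            have hu2 : u.val ≠ 2 * k := fun h => h1 ⟨u, H.edge_vert (SimpleGraph.Subgraph.Adj.symm hu), h⟩
            simp only [Set.mem_ofPred_eq]
            omega
        _ ≤ k := by rw [ncard_Ico (by omega)]; omega
    · obtain ⟨v, hv⟩ := hne
      refine ⟨v, hv, ?_⟩
      calc (H.neighborSet v).ncard
          ≤ ({i : Fin (2 * k + 1) | 0 ≤ i.val ∧ i.val < k} : Set _).ncard := by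
            refine Set.ncard_le_ncard ?_ (Set.toFinite _)
            intro u hu
            have hu2 : ¬ k ≤ u.val := fun h => h2 ⟨u, H.edge_vert (SimpleGraph.Subgraph.Adj.symm hu), h⟩
            simp only [Set.mem_ofPred_eq]
            omega
        _ ≤ k := by rw [ncard_Ico (by omega)]; omega

/-- Deleting at most one vertex from the extremal graph leaves a graph that is not
`(k-1)`-degenerate. -/
theorem ext_not_degenerate (k : ℕ) (hk : 2 ≤ k) (S : Set (Fin (2 * k + 1)))
    (hS : 2 * k ≤ S.ncard) : ¬ Degenerate ((ext k).induce S) (k - 1) := by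
  have hc : Sᶜ.ncard ≤ 1 := by
    have := Set.ncard_add_ncard_compl S
    rw [Nat.card_eq_fintype_card, Fintype.card_fin] at this
    omega
  have huniq : ∀ x y : Fin (2 * k + 1), x ∉ S → y ∉ S → x = y := by
    intro x y hx hy
    exact (Set.ncard_le_one (Set.toFinite _)).1 hc x hx y hy
  by_cases h : ∀ x : Fin (2 * k + 1), x ∉ S → x.val < k
  · -- at most one vertex of the clique is missing
    refine not_degenerate_of _ S S _ (le_refl _) ?_ ?_
    · refine ⟨⟨2 * k, by omega⟩, ?_⟩
      by_contra hn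
      have := h _ hn
      simp only at this
      omega
    · intro v hv
      rcases lt_or_ge v.val k with hvk | hvk
      · -- a clique vertex
        have hsub : ({i : Fin (2 * k + 1) | 0 ≤ i.val ∧ i.val < 2 * k} \ {v}) \ Sᶜ ⊆
            S ∩ {u | (ext k).Adj v u} := by
          rintro u ⟨⟨hu1, hu2⟩, hu3⟩
          have hu4 : u ∈ S := by simpa using hu3
          refine ⟨hu4, ext_adj.2 ?_⟩
          have hu5 : u.val ≠ v.val := fun h => hu2 (Fin.ext h)
          simp only [Set.mem_ofPred_eq] at hu1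
          omega
        have h1 := Set.ncard_le_ncard hsub (Set.toFinite _)
        have h2 := Set.le_ncard_sdiff Sᶜ ({i : Fin (2 * k + 1) | 0 ≤ i.val ∧ i.val < 2 * k} \ {v})
          (Set.toFinite _)
        have h3 : ({i : Fin (2 * k + 1) | 0 ≤ i.val ∧ i.val < 2 * k} \ {v}).ncard
            = 2 * k - 0 - 1 := by
          rw [Set.ncard_sdiff_singleton_of_mem, ncard_Ico (by omega)]
          simp only [Set.mem_ofPred_eq]
          omega
        omega
      · rcases lt_or_ge v.val (2 * k) with hvk2 | hvk2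
        · have hsub : ({i : Fin (2 * k + 1) | 0 ≤ i.val ∧ i.val < k} ∪ {⟨2 * k, by omega⟩}) \ Sᶜ ⊆
              S ∩ {u | (ext k).Adj v u} := by
            rintro u ⟨hu1, hu3⟩
            have hu4 : u ∈ S := by simpa using hu3
            refine ⟨hu4, ext_adj.2 ?_⟩
            rcases hu1 with hu1 | hu1
            · simp only [Set.mem_ofPred_eq] at hu1
              omega
            · have : u.val = 2 * k := by
                rw [Set.mem_singleton_iff] at hu1
                rw [hu1]
              omega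
          have h1 := Set.ncard_le_ncard hsub (Set.toFinite _)
          have h2 := Set.le_ncard_sdiff Sᶜ
            ({i : Fin (2 * k + 1) | 0 ≤ i.val ∧ i.val < k} ∪ {⟨2 * k, by omega⟩})
            (Set.toFinite _)
          have h3 : ({i : Fin (2 * k + 1) | 0 ≤ i.val ∧ i.val < k} ∪
              {⟨2 * k, by omega⟩} : Set _).ncard = k - 0 + 1 := by
            rw [Set.union_singleton, Set.ncard_insert_of_notMem, ncard_Ico (by omega)]
            simp only [Set.mem_ofPred_eq]
            omega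
          omega
        · have hsub : ({i : Fin (2 * k + 1) | k ≤ i.val ∧ i.val < 2 * k}) ⊆
              S ∩ {u | (ext k).Adj v u} := by
            intro u hu1
            simp only [Set.mem_ofPred_eq] at hu1
            refine ⟨?_, ext_adj.2 ?_⟩
            · by_contra hn
              have := h u hn
              omega
            · have := v.isLt
              omega
          have h1 := Set.ncard_le_ncard hsub (Set.toFinite _)
          rw [ncard_Ico (by omega)] at h1
          omega
  · -- the missing vertex is not in the clique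
    push Not at h
    obtain ⟨x, hx, hxk⟩ := h
    have hA : ∀ u : Fin (2 * k + 1), u.val < k → u ∈ S := by
      intro u hu
      by_contra hn
      have := huniq x u hx hn
      rw [this] at hxk
      omega
    have hA2 : ∀ u : Fin (2 * k + 1), u ≠ x → u ∈ S := by
      intro u hu
      by_contra hn
      exact hu (huniq u x hn hx)
    refine not_degenerate_of _ S (S ∩ {u | u.val < 2 * k}) _ Set.inter_subset_left ?_ ?_
    · exact ⟨⟨0, by omega⟩, hA _ (by simp only; omega), by simp only [Set.mem_ofPred_eq]; omega⟩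
    · rintro v ⟨hv, hv2⟩
      simp only [Set.mem_ofPred_eq] at hv2
      rcases lt_or_ge v.val k with hvk | hvk
      · have hsub : ({i : Fin (2 * k + 1) | 0 ≤ i.val ∧ i.val < 2 * k} \ {v}) \ {x} ⊆
            (S ∩ {u | u.val < 2 * k}) ∩ {u | (ext k).Adj v u} := by
          rintro u ⟨⟨hu1, hu2⟩, hu3⟩
          simp only [Set.mem_ofPred_eq] at hu1
          have hu5 : u.val ≠ v.val := fun h => hu2 (Fin.ext h)
          refine ⟨⟨hA2 u hu3, hu1.2⟩, ext_adj.2 ?_⟩
          omega
        have h1 := Set.ncard_le_ncard hsub (Set.toFinite _)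
        have h2 := Set.le_ncard_sdiff {x} ({i : Fin (2 * k + 1) | 0 ≤ i.val ∧ i.val < 2 * k} \ {v})
          (Set.toFinite _)
        have h3 : ({i : Fin (2 * k + 1) | 0 ≤ i.val ∧ i.val < 2 * k} \ {v}).ncard
            = 2 * k - 0 - 1 := by
          rw [Set.ncard_sdiff_singleton_of_mem, ncard_Ico (by omega)]
          simp only [Set.mem_ofPred_eq]
          omega
        rw [Set.ncard_singleton] at h2
        omega
      · have hsub : ({i : Fin (2 * k + 1) | 0 ≤ i.val ∧ i.val < k}) ⊆
            (S ∩ {u | u.val < 2 * k}) ∩ {u | (ext k).Adj v u} := by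
          intro u hu1
          simp only [Set.mem_ofPred_eq] at hu1
          refine ⟨⟨hA u hu1.2, ?_⟩, ext_adj.2 ?_⟩
          · simp only [Set.mem_ofPred_eq]
            omega
          · omega
        have h1 := Set.ncard_le_ncard hsub (Set.toFinite _)
        rw [ncard_Ico (by omega)] at h1
        omega

theorem degenerate_mono {V : Type*} {G : SimpleGraph V} {d e : ℕ} (hde : d ≤ e)
    (h : Degenerate G d) : Degenerate G e := by
  intro H hne
  obtain ⟨v, hv, hle⟩ := h H hne
  exact ⟨v, hv, hle.trans hde⟩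

theorem not_degenerate_of_all {n : ℕ} (G : SimpleGraph (Fin n)) (T : Set (Fin n)) (d : ℕ)
    (hne : T.Nonempty)
    (h : ∀ v ∈ T, d < (T ∩ {u | G.Adj v u}).ncard) : ¬ Degenerate G d := by
  intro hd
  obtain ⟨t, ht⟩ := hne
  obtain ⟨v, hv, hle⟩ := hd ((⊤ : G.Subgraph).induce T) ⟨t, ht⟩
  have hlt := h v hv
  have heq : ((⊤ : G.Subgraph).induce T).neighborSet v = (T ∩ {u | G.Adj v u}) := by
    ext u
    simp only [SimpleGraph.Subgraph.mem_neighborSet, SimpleGraph.Subgraph.induce_adj,
      Set.mem_ofPred_eq, SimpleGraph.Subgraph.top_adj, Set.mem_inter_iff]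
    have hv' : v ∈ T := hv
    tauto
  rw [heq] at hle
  omega

theorem ext_hasDegeneracy (k : ℕ) (hk : 2 ≤ k) : HasDegeneracy (ext k) k := by
  refine ⟨ext_degenerate k, ?_⟩
  intro d hd
  by_contra hlt
  have hdk : d ≤ k - 1 := by omega
  have hd' : Degenerate (ext k) (k - 1) := degenerate_mono hdk hd
  refine not_degenerate_of_all (ext k) {i | 0 ≤ i.val ∧ i.val < 2 * k} (k - 1) ?_ ?_ hd'
  · exact ⟨⟨0, by omega⟩, by simp only [Set.mem_ofPred_eq]; omega⟩
  · intro v hv
    simp only [Set.mem_ofPred_eq] at hv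
    rcases lt_or_ge v.val k with hvk | hvk
    · have hsub : ({i : Fin (2 * k + 1) | 0 ≤ i.val ∧ i.val < 2 * k} \ {v}) ⊆
          ({i | 0 ≤ i.val ∧ i.val < 2 * k}) ∩ {u | (ext k).Adj v u} := by
        rintro u ⟨hu1, hu2⟩
        simp only [Set.mem_ofPred_eq] at hu1
        have hu5 : u.val ≠ v.val := fun h => hu2 (Fin.ext h)
        refine ⟨hu1, ext_adj.2 ?_⟩
        omega
      have h1 := Set.ncard_le_ncard hsub (Set.toFinite _)
      have h3 : ({i : Fin (2 * k + 1) | 0 ≤ i.val ∧ i.val < 2 * k} \ {v}).ncard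
          = 2 * k - 0 - 1 := by
        rw [Set.ncard_sdiff_singleton_of_mem, ncard_Ico (by omega)]
        simp only [Set.mem_ofPred_eq]
        omega
      omega
    · have hsub : ({i : Fin (2 * k + 1) | 0 ≤ i.val ∧ i.val < k}) ⊆
          ({i | 0 ≤ i.val ∧ i.val < 2 * k}) ∩ {u | (ext k).Adj v u} := by
        intro u hu1
        simp only [Set.mem_ofPred_eq] at hu1
        refine ⟨?_, ext_adj.2 ?_⟩
        · simp only [Set.mem_ofPred_eq]
          omega
        · omega
      have h1 := Set.ncard_le_ncard hsub (Set.toFinite _)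
      rw [ncard_Ico (by omega)] at h1
      omega

theorem alpha_ext_le (k : ℕ) (hk : 2 ≤ k) : alpha (k - 1) (ext k) ≤ 2 * k - 1 := by
  unfold alpha
  refine csSup_le ?_ ?_
  · refine ⟨0, ∅, Set.ncard_empty _, ?_⟩
    rintro H ⟨v, -⟩
    exact absurd v.2 (Set.notMem_empty _)
  · rintro m ⟨S, rfl, hS⟩
    by_contra hlt
    exact ext_not_degenerate k hk S (by omega) hS

theorem alphaInf_le (k : ℕ) (hk : 2 ≤ k) :
    alphaInf (k - 1) k ≤ ((2 * k - 1 : ℕ) : ℝ) / ((2 * k + 1 : ℕ) : ℝ) := by
  have hbdd : BddBelow {x : ℝ | ∃ n : ℕ, 0 < n ∧ ∃ G : SimpleGraph (Fin n), HasDegeneracy G k ∧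
      x = (alpha (k - 1) G : ℝ) / (n : ℝ)} := by
    refine ⟨0, ?_⟩
    rintro x ⟨n, -, G, -, rfl⟩
    positivity
  refine (csInf_le hbdd ⟨2 * k + 1, by omega, ext k, ext_hasDegeneracy k hk, rfl⟩).trans ?_
  have h := alpha_ext_le k hk
  have h' : ((alpha (k - 1) (ext k) : ℕ) : ℝ) ≤ ((2 * k - 1 : ℕ) : ℝ) := by exact_mod_cast h
  gcongr

/-- For every `k ≥ 2` some graph with `2k+1` vertices and degeneracy exactly `k` has no induced
`(k-1)`-degenerate subgraph on more than `2k-1` vertices. Hence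
`alpha_(k-1)(k) ≤ (2k-1)/(2k+1) < k/(k+1)` for all `k ≥ 2`, and the formula
`alpha_d(k) = (d+1)/(k+1)` fails for every `k ≥ 3` at `d = k-1`. -/
theorem result :
    (∀ k : ℕ, 2 ≤ k →
      (∃ G : SimpleGraph (Fin (2 * k + 1)), HasDegeneracy G k ∧ alpha (k - 1) G ≤ 2 * k - 1) ∧
      alphaInf (k - 1) k ≤ (2 * (k : ℝ) - 1) / (2 * (k : ℝ) + 1) ∧
      alphaInf (k - 1) k < (k : ℝ) / ((k : ℝ) + 1)) ∧
    ¬ (∀ k d : ℕ, 3 ≤ k → d < k → alphaInf d k = ((d : ℝ) + 1) / ((k : ℝ) + 1)) := by
  have h2 : ∀ k : ℕ, 2 ≤ k → alphaInf (k - 1) k ≤ (2 * (k : ℝ) - 1) / (2 * (k : ℝ) + 1) := by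
    intro k hk
    have h := alphaInf_le k hk
    rw [Nat.cast_sub (by omega)] at h
    push_cast at h
    exact h
  have h3 : ∀ k : ℕ, 2 ≤ k → alphaInf (k - 1) k < (k : ℝ) / ((k : ℝ) + 1) := by
    intro k hk
    refine (h2 k hk).trans_lt ?_
    have hk0 : (0 : ℝ) ≤ k := Nat.cast_nonneg k
    rw [div_lt_div_iff₀ (by positivity) (by positivity)]
    nlinarith
  refine ⟨fun k hk => ⟨⟨ext k, ext_hasDegeneracy k hk, alpha_ext_le k hk⟩, h2 k hk, h3 k hk⟩, ?_⟩
  intro hall
  have h := hall 3 2 (le_refl _) (by norm_num)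
  have h' := h3 3 (by norm_num)
  rw [show (3 - 1 : ℕ) = 2 from rfl, h] at h'
  norm_num at h'

end Pool.Agent.Results.MP_f95752_co.TopCase
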